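import Mathlib

/-!
# A non-regular solution of the three-dimensional queens problem

For `n = 121 = 11 ^ 2` we interleave the regular solution `3 x + 5 y` modulo `11` in the low digits
with (differently shifted copies of) the same solution in the high digits.
-/

set_option autoImplicit false

namespace Pool.Agent.Results.MP_70387e_co.NonRegular

/-- Two cells attack each other. -/
def Attack (x y : Fin 3 → ℤ) : Prop :=
  ∃ t : ℤ, t ≠ 0 ∧ ∃ v : Fin 3 → ℤ, v ≠ 0 ∧ (∀ i, v i = -1 ∨ v i = 0 ∨ v i = 1) ∧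
    ∀ i, y i - x i = t * v i

/-- `S` is a solution of the `(n, 3)`-queens problem. -/
def IsSolution (n : ℕ) (S : Finset (Fin 3 → ℤ)) : Prop :=
  (∀ x ∈ S, ∀ i, 1 ≤ x i ∧ x i ≤ n) ∧ S.card = n ^ 2 ∧
    ∀ x ∈ S, ∀ y ∈ S, x ≠ y → ¬ Attack x y

/-- `S` is regular (linear). -/
def IsRegular (n : ℕ) (S : Finset (Fin 3 → ℤ)) : Prop :=
  ∃ a b c : ℤ, ∀ x ∈ S, x 2 ≡ a * x 0 + b * x 1 + c [ZMOD n]

/-- The shift in the high digit. -/
def sh (i j : ℤ) : ℤ := if i % 11 = 0 ∧ j % 11 = 0 then 1 else 0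

/-- The height function (with coordinates starting at `0`). -/
def f (i j : ℤ) : ℤ :=
  (3 * (i % 11) + 5 * (j % 11)) % 11 + 11 * ((3 * (i / 11) + 5 * (j / 11) + sh i j) % 11)

theorem f_range (i j : ℤ) : 0 ≤ f i j ∧ f i j ≤ 120 := by
  unfold f
  generalize sh i j = c
  omega

theorem f_mod (i j : ℤ) : f i j % 11 = (3 * i + 5 * j) % 11 := by
  unfold f
  generalize sh i j = c
  omega

/-- The graph of `f` over `{0, ..., m - 1} ^ 2` (coordinates shifted by one). -/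
theorem exists_graph (m : ℕ) : ∃ S : Finset (Fin 3 → ℤ), S.card = m ^ 2 ∧
    ∀ x : Fin 3 → ℤ, x ∈ S ↔
      (0 ≤ x 0 - 1 ∧ x 0 ≤ m) ∧ (0 ≤ x 1 - 1 ∧ x 1 ≤ m) ∧ x 2 = f (x 0 - 1) (x 1 - 1) + 1 := by
  refine ⟨(Finset.range m ×ˢ Finset.range m).image
    fun p => ![(p.1 : ℤ) + 1, (p.2 : ℤ) + 1, f p.1 p.2 + 1], ?_, fun x => ?_⟩
  · rw [Finset.card_image_of_injective, Finset.card_product, Finset.card_range, sq]
    rintro ⟨a, b⟩ ⟨a', b'⟩ h
    have h1 := congrFun h 0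
    have h2 := congrFun h 1
    simp at h1 h2
    rw [h1, h2]
  · simp only [Finset.mem_image, Finset.mem_product, Finset.mem_range, Prod.exists]
    constructor
    · rintro ⟨a, b, ⟨ha, hb⟩, rfl⟩
      refine ⟨?_, ?_, ?_⟩
      · simp; omega
      · simp; omega
      · simp
    · rintro ⟨⟨h1, h2⟩, ⟨h3, h4⟩, h5⟩
      obtain ⟨a, ha⟩ := Int.eq_ofNat_of_zero_le h1
      obtain ⟨b, hb⟩ := Int.eq_ofNat_of_zero_le h3
      refine ⟨a, b, ⟨by omega, by omega⟩, ?_⟩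
      rw [ha, hb] at h5
      funext i
      match i with
      | 0 => simp only [Matrix.cons_val_zero]; omega
      | 1 => simp only [Matrix.cons_val_one, Matrix.cons_val_zero]; omega
      | 2 => rw [h5]; rfl

theorem dvd_of_dvd_mul {a b c t : ℤ} (ha : a = -1 ∨ a = 0 ∨ a = 1) (hb : b = -1 ∨ b = 0 ∨ b = 1)
    (hc : c = -1 ∨ c = 0 ∨ c = 1) (h0 : ¬ (a = 0 ∧ b = 0 ∧ c = 0))
    (h : (3 * (t * a) + 5 * (t * b) - t * c) % 11 = 0) : t % 11 = 0 := by
  rcases ha with rfl | rfl | rfl <;> rcases hb with rfl | rfl | rfl <;>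
    rcases hc with rfl | rfl | rfl <;> omega

theorem no_attack (i j i' j' t a b c : ℤ) (hi : 0 ≤ i ∧ i ≤ 120) (hj : 0 ≤ j ∧ j ≤ 120)
    (hi' : 0 ≤ i' ∧ i' ≤ 120) (hj' : 0 ≤ j' ∧ j' ≤ 120)
    (ha : a = -1 ∨ a = 0 ∨ a = 1) (hb : b = -1 ∨ b = 0 ∨ b = 1)
    (hc : c = -1 ∨ c = 0 ∨ c = 1) (h0 : ¬ (a = 0 ∧ b = 0 ∧ c = 0)) (ht : t ≠ 0)
    (h1 : i' - i = t * a) (h2 : j' - j = t * b) (h3 : f i' j' - f i j = t * c) : False := by
  have h4 : t % 11 = 0 := by
    apply dvd_of_dvd_mul ha hb hc h0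
    rw [← h1, ← h2, ← h3]
    have := f_mod i j
    have := f_mod i' j'
    omega
  obtain ⟨s, rfl⟩ : ∃ s, t = 11 * s := ⟨t / 11, by omega⟩
  have h5 : i' % 11 = i % 11 := by rw [mul_assoc] at h1; omega
  have h6 : j' % 11 = j % 11 := by rw [mul_assoc] at h2; omega
  have h7 : i' / 11 = i / 11 + s * a := by rw [mul_assoc] at h1; omega
  have h8 : j' / 11 = j / 11 + s * b := by rw [mul_assoc] at h2; omega
  have h9 : sh i' j' = sh i j := by unfold sh; rw [h5, h6]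
  have h10 : s % 11 = 0 := by
    apply dvd_of_dvd_mul ha hb hc h0
    unfold f at h3
    rw [h5, h6, h7, h8, h9, mul_assoc] at h3
    generalize sh i j = e at h3
    omega
  obtain ⟨u, rfl⟩ : ∃ u, s = 11 * u := ⟨s / 11, by omega⟩
  have h11 := f_range i j
  have h12 := f_range i' j'
  rcases ha with rfl | rfl | rfl <;> rcases hb with rfl | rfl | rfl <;>
    rcases hc with rfl | rfl | rfl <;> omega

theorem no_linear (a b c : ℤ)
    (h0 : 11 + 1 ≡ a * (0 + 1) + b * 1 + c [ZMOD (121 : ℕ)])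
    (h1 : 3 + 1 ≡ a * (1 + 1) + b * 1 + c [ZMOD (121 : ℕ)])
    (h2 : 6 + 1 ≡ a * (2 + 1) + b * 1 + c [ZMOD (121 : ℕ)]) :
    False := by
  unfold Int.ModEq at h0 h1 h2
  push_cast at h0 h1 h2
  omega

theorem f00 : f 0 0 = 11 := by decide

theorem f10 : f 1 0 = 3 := by decide

theorem f20 : f 2 0 = 6 := by decide

/-- **There is a non-regular solution of a three-dimensional queens problem.** -/
theorem result : ∃ n : ℕ, 1 ≤ n ∧ ∃ S : Finset (Fin 3 → ℤ), IsSolution n S ∧ ¬ IsRegular n S := by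
  obtain ⟨S, hc, hS⟩ := exists_graph 121
  refine ⟨121, by norm_num, S, ⟨?_, hc, ?_⟩, ?_⟩
  · intro x hx i
    obtain ⟨h1, h2, h3⟩ := (hS x).1 hx
    have h4 := f_range (x 0 - 1) (x 1 - 1)
    push_cast at h1 h2 ⊢
    match i with
    | 0 => omega
    | 1 => omega
    | 2 => omega
  · rintro x hx y hy - ⟨t, ht, v, hv, hv1, hv2⟩
    obtain ⟨h1, h2, h3⟩ := (hS x).1 hx
    obtain ⟨h4, h5, h6⟩ := (hS y).1 hy
    have e0 := hv2 0
    have e1 := hv2 1
    have e2 := hv2 2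
    rw [h3, h6] at e2
    push_cast at h1 h2 h4 h5
    refine no_attack (x 0 - 1) (x 1 - 1) (y 0 - 1) (y 1 - 1) t (v 0) (v 1) (v 2)
      (by omega) (by omega) (by omega) (by omega)
      (hv1 0) (hv1 1) (hv1 2) ?_ ht (by linarith) (by linarith) (by linarith)
    rintro ⟨h1, h2, h3⟩
    apply hv
    funext i
    match i with
    | 0 => exact h1
    | 1 => exact h2
    | 2 => exact h3
  · rintro ⟨a, b, c, h⟩
    have key : ∀ i : ℤ, 0 ≤ i → i ≤ 120 → f i 0 + 1 ≡ a * (i + 1) + b * 1 + c [ZMOD (121 : ℕ)] := by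
      intro i hi hi'
      have h1 := h ![i + 1, 1, f i 0 + 1] ((hS _).2 (by
        refine ⟨?_, ?_, ?_⟩
        · simp; omega
        · simp
        · simp))
      simpa using h1
    have h0 := key 0 (by norm_num) (by norm_num)
    have h1 := key 1 (by norm_num) (by norm_num)
    have h2 := key 2 (by norm_num) (by norm_num)
    rw [f00] at h0
    rw [f10] at h1
    rw [f20] at h2
    exact no_linear a b c h0 h1 h2

end Pool.Agent.Results.MP_70387e_co.NonRegular
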